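import Pool.Agent.H24.SC.Fin
import Pool.Agent.H24.SC.Cyc
import Pool.Agent.H24.SC.Inst

/-!
# MP_6c24cd_co: the shortness coefficient of `F_r` is less than one for `r = 5`, `r = 7` and all
`r ≥ 9`

For these `r` there are arbitrarily large `r`-regular, `r`-connected, cyclically
`(r + 1)`-edge-connected graphs whose longest cycle misses at least `n / (20 r ^ 2)` of the `n`
vertices.
-/

namespace Pool.Agent.Results.MP_6c24cd_co.UpperHalf

open Pool.Agent.H24.SC

/-- `G` is `r`-regular: every vertex has exactly `r` neighbours. -/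
def IsReg {V : Type} (G : SimpleGraph V) (r : ℕ) : Prop := ∀ v, (G.neighborSet v).ncard = r

/-- `G` is `r`-connected: it has more than `r` vertices, and deleting fewer than `r` vertices
leaves a connected graph. -/
def IsConn {V : Type} [Fintype V] (G : SimpleGraph V) (r : ℕ) : Prop :=
  r < Fintype.card V ∧ ∀ Y : Finset V, Y.card < r → (G.induce {v | v ∉ Y}).Connected

/-- The component `c` of `G` contains a cycle. -/
def HasCycle {V : Type} {G : SimpleGraph V} (c : G.ConnectedComponent) : Prop :=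
  ∃ (v : V) (p : G.Walk v v), p.IsCycle ∧ G.connectedComponentMk v = c

/-- `G` is cyclically `s`-edge-connected: no set `F` of fewer than `s` edges can be deleted so as
to leave two components that each contain a cycle. -/
def IsCycConn {V : Type} (G : SimpleGraph V) (s : ℕ) : Prop :=
  ∀ F : Finset (Sym2 V), (F : Set (Sym2 V)) ⊆ G.edgeSet → F.card < s →
    ¬ ∃ c c' : (G.deleteEdges (F : Set (Sym2 V))).ConnectedComponent,
      c ≠ c' ∧ HasCycle c ∧ HasCycle c'

/-- The circumference `c(G)`: the length of a longest cycle. -/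
noncomputable def circumference {V : Type} (G : SimpleGraph V) : ℕ :=
  sSup {l | ∃ (v : V) (p : G.Walk v v), p.IsCycle ∧ p.length = l}

/-- The class `F_r`: `r`-regular, `r`-connected, cyclically `(r + 1)`-edge-connected graphs. -/
def InF (r : ℕ) {V : Type} [Fintype V] (G : SimpleGraph V) : Prop :=
  IsReg G r ∧ IsConn G r ∧ IsCycConn G (r + 1)

/-- `a(F_r) ≤ c₁`: there are arbitrarily large graphs `G` in `F_r` with `c(G) ≤ c₁ n(G)`. -/
def ShortnessLE (r : ℕ) (c₁ : ℝ) : Prop :=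
  ∀ n₀ : ℕ, ∃ (V : Type) (_ : Fintype V) (G : SimpleGraph V), n₀ ≤ Fintype.card V ∧ InF r G ∧
    (circumference G : ℝ) ≤ c₁ * Fintype.card V

/-- For `r = 5`, `r = 7` and every `r ≥ 9`: `a(F_r) ≤ 1 - 1 / (20 r ^ 2) < 1`. -/
theorem result (r : ℕ) (h5 : 5 ≤ r) (h6 : r ≠ 6) (h8 : r ≠ 8) :
    ShortnessLE r (1 - 1 / (20 * (r : ℝ) ^ 2)) := by
  classical
  intro n₀
  obtain ⟨t0, N, T, C, hC⟩ : ∃ t0 N T, ∃ C : SimpleGraph (Tp r T), Core r t0 N T C := by
    rcases Nat.lt_or_ge r 7 with h | h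
    · have : r = 5 := by omega
      subst this
      exact core_five
    · exact core_big r h h8
  have hk : NeZero (n₀ + 1) := ⟨by omega⟩
  have hw := win_inst r (n₀ + 1) T (by omega)
  have hcard := card_vx (U := ZMod (n₀ + 1) × Fin r) (X := ZMod (n₀ + 1)) hC
  have hN := hC.N_ge
  have hN2 := hC.N_le
  rw [Fintype.card_prod, ZMod.card, Fintype.card_fin] at hcard
  set n := Fintype.card (Vx (ZMod (n₀ + 1) × Fin r) (ZMod (n₀ + 1)) r T) with hn
  have hcard' : n = (n₀ + 1) * (6 * r ^ 2 + N * r + N) := by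
    rw [hcard]
    ring
  have hn0 : 6 * r ^ 2 + N * r + N ≤ n := by
    rw [hcard']
    exact Nat.le_mul_of_pos_left _ (by omega)
  have hrn : r < n := by
    have : 0 ≤ 6 * r ^ 2 := Nat.zero_le _
    have : 0 ≤ N * r := Nat.zero_le _
    omega
  have hn2 : n₀ + 1 ≤ n := by
    rw [hcard']
    exact Nat.le_mul_of_pos_right _ (by omega)
  have hn3 : n ≤ (n₀ + 1) * (10 * r ^ 2) := by
    rw [hcard']
    refine Nat.mul_le_mul_left _ ?_
    nlinarith
  refine ⟨Vx (ZMod (n₀ + 1) × Fin r) (ZMod (n₀ + 1)) r T, inferInstance, Gr C _, by omega,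
    ⟨fun v => ncard_nbr hC hw v, ⟨hrn, fun Y hY => conn_of_vc hC hw hrn Y hY⟩,
      ?_⟩, ?_⟩
  · rintro F - hF ⟨c, c', hne, hc, hc'⟩
    exact cyc_of_ec hC hw F hF _ rfl c c' hne hc hc'
  · have hcirc : 2 * circumference (Gr C (fun (t : Tp r T) (u : ZMod (n₀ + 1) × Fin r) =>
        if t.1.2 ≤ u.2 then u.1 else u.1 - 1)) + (n₀ + 1) ≤ 2 * n := by
      unfold circumference
      set S := {l | ∃ (v : Vx (ZMod (n₀ + 1) × Fin r) (ZMod (n₀ + 1)) r T)
        (p : (Gr C (fun (t : Tp r T) (u : ZMod (n₀ + 1) × Fin r) =>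
          if t.1.2 ≤ u.2 then u.1 else u.1 - 1)).Walk v v), p.IsCycle ∧ p.length = l} with hS
      have hbd : ∀ l ∈ S, 2 * l + (n₀ + 1) ≤ 2 * n := by
        rintro l ⟨v, p, hp, rfl⟩
        have := cyc_bound hC hw v p hp
        rw [ZMod.card] at this
        exact this
      rcases S.eq_empty_or_nonempty with h | h
      · rw [h, csSup_empty]
        simp only [Nat.bot_eq_zero]
        omega
      · exact hbd _ (Nat.sSup_mem h ⟨n, fun l hl => by have := hbd l hl; omega⟩)
    have hr : (0 : ℝ) < r := by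
      have : (5 : ℝ) ≤ r := by exact_mod_cast h5
      linarith
    have h1 : (2 : ℝ) * circumference (Gr C (fun (t : Tp r T) (u : ZMod (n₀ + 1) × Fin r) =>
        if t.1.2 ≤ u.2 then u.1 else u.1 - 1)) + (n₀ + 1) ≤ 2 * n := by exact_mod_cast hcirc
    have h2 : (n : ℝ) ≤ (n₀ + 1) * (10 * r ^ 2) := by exact_mod_cast hn3
    have h3 : (n : ℝ) / (20 * (r : ℝ) ^ 2) ≤ (n₀ + 1) / 2 := by
      rw [div_le_iff₀ (by positivity)]
      linarith
    have h4 : (1 - 1 / (20 * (r : ℝ) ^ 2)) * n = n - n / (20 * (r : ℝ) ^ 2) := by ring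
    rw [h4]
    linarith

end Pool.Agent.Results.MP_6c24cd_co.UpperHalf
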